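import Pool.Agent.Helper22.NEARg.Defs
import Pool.Agent.Helper45.T5g.Outer

/-!
# T5g, block NEARsg (pairs of near states across SPLIT, common front of a static level): definitions

`s = sL m k l = sL m k l' + 1`.  `t` is the number of the finest common front for the upper state
`l` (`1 ≤ t < rL m k l`), its number for the lower state is `t - 1`.  The joint families are those
of the upper state; if `t = 1` the first level of the lower state has an outer key.
-/

set_option autoImplicit false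

namespace Pool.Agent.Helper22.NEARsg

open Finset
open Pool.Agent.Helper5.ET hiding Key Mk AA Rp keysOf el ext
open Pool.Agent.Helper27.T4
open Pool.Agent.Helper27.T5b
open Pool.Agent.Helper27.T5g hiding FF_pos dvd_cs cs_lt QQ_eq_NN c0_lt Jn_pos
open Pool.Agent.Helper37.T5g
open Pool.Agent.Helper30.T5g hiding pz_prime pz_inj
open Pool.Agent.Helper22.HW Pool.Agent.Helper22.SL Pool.Agent.Helper57.T5
open Pool.Agent.Helper39.T5 Pool.Agent.Helper50.T5 Pool.Agent.Helper45.T5g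
open Pool.Agent.Helper99.T5g
open Pool.Agent.Helper84.T5g Pool.Agent.Helper44.T5 Pool.Agent.Helper44.T5g Pool.Agent.Helper44.T5b
open Pool.Agent.Helper22.NEARg (wW lam RegE)

/-- the data of a pair of near states across SPLIT, finest common front `t` -/
structure PDs (m : Sq) (k t l' l : ℕ) : Prop where
  le : l' ≤ l
  near : Near m k l' l
  split : Split m k l' l
  t1 : 1 ≤ t
  tr : t < rL m k l
  com : ez m (sL m k l - t) l' = ez m (sL m k l - t) l
  jump : ∀ i, t < i → i ≤ rL m k l → ez m (sL m k l - i) l' ≠ ez m (sL m k l - i) l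

/-- the case `CaseStatS` -/
theorem PDs.of_case {m : Sq} {k l' l : ℕ} (hl : l' ≤ l) (h : CaseStatS m k l' l) :
    ∃ t, PDs m k t l' l := by
  obtain ⟨h1, h2, u, h4, ⟨h5, h6, h7⟩, h8⟩ := h
  have e3 : bL m k l' = bL m k l := h2.2
  refine ⟨sL m k l - u, hl, h1, h2, by omega, ?_, ?_, ?_⟩
  · unfold rL
    omega
  · rw [show sL m k l - (sL m k l - u) = u by omega]
    exact h7
  · intro i hi1 hi2 he
    unfold rL at hi2
    exact h8 (sL m k l - i) (by omega) ⟨by omega, by omega, he⟩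

theorem PDs.sL_eq {m : Sq} {k t l' l : ℕ} (h : PDs m k t l' l) : sL m k l' + 1 = sL m k l := h.split.1

theorem PDs.bL_eq {m : Sq} {k t l' l : ℕ} (h : PDs m k t l' l) : bL m k l' = bL m k l := h.split.2

theorem PDs.rL_eq {m : Sq} {k t l' l : ℕ} (h : PDs m k t l' l) : rL m k l' + 1 = rL m k l := by
  have e1 := h.sL_eq
  have e2 := h.bL_eq
  have e3 := h.tr
  have e4 := h.t1
  unfold rL at e3 ⊢
  omega

theorem PDs.wW_eq {m : Sq} {k t l' l : ℕ} (h : PDs m k t l' l) {i : ℕ} (hi : 1 ≤ i) :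
    wW m k l' (i - 1) = wW m k l i := by
  have e1 := h.sL_eq
  unfold wW
  congr 1
  omega

/-! ## windows -/

/-- the part of the elements below the front number `t`, with the outer key `o` in the level `0` -/
noncomputable def ZwO (m : Sq) (k l t : ℕ) (o : JF → ℕ) (w : Key → ℕ) : Finset ℕ :=
  ((Fintype.piFinset (fun u : Fin (rL m k l - t) => Ys m k l (t + u))) ×ˢ Vw m k l w).image
    (fun q => ∑ u : Fin (rL m k l - t),
      cs m k l (t + u) w (if t + (u : ℕ) = 0 then o else 0) (q.1 u) + Un m k l * q.2)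

/-- the same in units of `Jn m k s l * LL t` (only for `t ≥ 1`) -/
noncomputable abbrev Bw (m : Sq) (k l t : ℕ) (w : Key → ℕ) : Finset ℕ :=
  Pool.Agent.Helper22.NEARg.Bw m k l t w

/-- the deep keys of a pair: static levels `≥ s` of `l`, `≥ s - 1` of `l'` -/
noncomputable def deep (m : Sq) (k l l' s : ℕ) : Finset Key :=
  Pool.Agent.Helper22.NEARg.keysD m k l s ∪ Pool.Agent.Helper22.NEARg.keysD m k l' (s - 1)

/-! ## the local system -/

/-- the modulus of the lower state and of the static levels above the common front -/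
noncomputable def bm (m : Sq) (k t l' l : ℕ) : ℕ := Jn m k (sL m k l) l' * LL (QQ m k (sL m k l)) t

/-- inverse of the modulus of the static levels above the common front modulo `DJ` -/
noncomputable def Qi (m : Sq) (k t l' l : ℕ) : ℕ :=
  (((LL (QQ m k (sL m k l)) t : ℕ) : ZMod (DJ m k l l' t))⁻¹).val

/-- contexts: outer key of `l'`, `θ`, `γ`, `κ₂`, `N` -/
abbrev Cx : Type := (JF → ℕ) × (JF → ℕ × ℕ) × ℕ × ℕ × ℕ

/-- the class map of a context -/
noncomputable def clx (m : Sq) (k t l' l : ℕ) (c : Cx) (i : ℕ) : ℕ :=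
  Qi m k t l' l * (clJ m k l l' t c.2.1 i + c.2.2.1)

/-- the number of solutions of the local system of a pair of states in a context -/
noncomputable def cNx (m : Sq) (k t l' l : ℕ) (w : Key → ℕ) (c : Cx) : ℕ :=
  cN (Zw m k l t w) (ZwO m k l' (t - 1) c.1 w) (IJ m k l l') (bm m k t l' l)
    (DJ m k l l' t) (clx m k t l' l c) c.2.2.2.1 (bm m k t l' l * c.2.2.2.2)

/-- the contexts -/
def IsCx (m : Sq) (k t l' l : ℕ) (c : Cx) : Prop :=
  c.1 ∈ OK m k l' (t - 1) ∧ c.2.1 ∈ Theta (pJ k (sL m k l)) (dJ m k l l' t) ∧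
    c.2.2.1 < DJ m k l l' t ∧ c.2.2.2.1 < 4

/-- some local system of the pair has more than `R` solutions -/
def Bad (m : Sq) (k t l' l : ℕ) (R : ℝ) (w : Key → ℕ) : Prop :=
  ∃ c : Cx, IsCx m k t l' l c ∧ R < cNx m k t l' l w c

/-- a finite set of contexts -/
noncomputable def Jx (m : Sq) (k t l' l : ℕ) : Finset Cx :=
  OK m k l' (t - 1) ×ˢ (Theta (pJ k (sL m k l)) (dJ m k l l' t) ×ˢ (range (DJ m k l l' t) ×ˢ
    (range 4 ×ˢ range ((10 ^ 6) ^ (3 * wW m k l t)))))

/-! ## the levels used for a pair -/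

/-- number of static levels used for the pair -/
noncomputable abbrev hb (m : Sq) (k t l' l : ℕ) : ℕ := Pool.Agent.Helper22.NEARg.hb m k t l' l

/-- the pair with the outer key `o` as an instance of the static block -/
noncomputable def PN (m : Sq) (k t l' l : ℕ) (o : JF → ℕ) : Pr Key where
  h := hb m k t l' l
  p := fun r => pz k (sL m k l - (t + r))
  z := fun r => zf m k (sL m k l - (t + r))
  M := Jn m k (sL m k l) l
  M' := Jn m k (sL m k l) l'
  L0 := LL (QQ m k (sL m k l)) t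
  F := fun r => FF m k l (t + r)
  F' := fun r => Jn m k (sL m k l) (ez m (sL m k l - (t + r)) l')
  Y := fun r => Ys m k l (t + r)
  key := fun r => (Ss m k l (t + r) 0).key
  key' := fun r => (Ss m k l' (t - 1 + r) (if t - 1 + r = 0 then o else 0)).key

/-- index (for `l`) of the windows below the static levels of the pair -/
noncomputable def sb (m : Sq) (k t l' l : ℕ) : ℕ := t + hb m k t l' l

/-- number of the targets of a context -/
noncomputable def nTx (m : Sq) (k t l' l : ℕ) (c : Cx) : ℕ :=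
  Pool.Agent.Helper39.SL.nT (IJ m k l l') ((PN m k t l' l c.1).M' * (PN m k t l' l c.1).L0)
    (DJ m k l l' t) c.2.2.2.1 (bm m k t l' l * c.2.2.2.2) (clx m k t l' l c)

/-- the targets of a context -/
noncomputable def XTx (m : Sq) (k t l' l : ℕ) (c : Cx) : ℕ → ℕ :=
  Pool.Agent.Helper39.SL.XT (IJ m k l l') ((PN m k t l' l c.1).M' * (PN m k t l' l c.1).L0)
    (DJ m k l l' t) c.2.2.2.1 (bm m k t l' l * c.2.2.2.2) (clx m k t l' l c)

/-- the number `PP * A * pc` of the windows of a pair in a context -/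
noncomputable def PPx (m : Sq) (k t l' l : ℕ) (w : Key → ℕ) (c : Cx) : ℝ :=
  PP (PN m k t l' l c.1) (nTx m k t l' l c) (XTx m k t l' l c)
    (Bw m k l (sb m k t l' l) w) (Bw m k l' (sb m k t l' l - 1) w) *
      (PN m k t l' l c.1).A (PN m k t l' l c.1).h * (PN m k t l' l c.1).pc (PN m k t l' l c.1).h

/-! ## the cases -/

/-- a bound for the pairs with the property `Q`, `k = m.k`; the exponent `E` of the ratio is
absolute -/
def MidB (m : Sq) (Q : ℕ → ℕ → ℕ → Prop) (E : ℕ) : Prop :=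
  ∃ (c0 m' : ℝ) (K0 : ℕ), 0 < c0 ∧ 0 ≤ m' ∧
    ∀ t l' l, K0 ≤ l' → PDs m m.k t l' l → Apart m m.k l' l → Q t l' l →
      ∀ K, keysOf m m.k l ⊆ K → keysOf m m.k l' ⊆ K →
        Pool.Agent.Helper22.SL.PrG (Mk m m.k) K
          (Bad m m.k t l' l ((2 ^ (E * m.q 0) : ℕ) : ℝ)) (m' * Real.exp (-((l : ℝ) ^ c0)))

/-- the deeper windows are treated by regularity -/
def CaseReg (m : Sq) (k t l' l : ℕ) : Prop := 7 * wW m k l (sb m k t l' l) ≤ 20 * (l - l')

/-- the deeper windows are the last windows (one element), and they are longer than the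
distance -/
def CaseBt (m : Sq) (k t l' l : ℕ) : Prop :=
  sb m k t l' l = rL m k l ∧ 20 * (l - l') < 7 * SS m (bL m k l)

/-- the number `ρ = exp (-δ)` of the case of regular windows -/
noncomputable def dReg (m : Sq) (k t l' l : ℕ) : ℝ := (wW m k l (sb m k t l' l) : ℝ) / 200

/-! ## the lines -/

/-- S1: reduction of a pair to the local systems of the common front -/
def NearRS (E : ℕ) (m : Sq) : Prop := ∃ K0 : ℕ, ∀ t l' l, K0 ≤ l' → PDs m m.k t l' l →
    ∀ (w : Key → ℕ) (R : ℕ), (∀ c : Cx, IsCx m m.k t l' l c → cNx m m.k t l' l w c ≤ R) →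
    ∀ n, Rp m m.k l l' w n ≤ 2 ^ (E * m.q 0) * R

/-- S2: finitely many contexts suffice -/
def BadCtxS (m : Sq) (k : ℕ) : Prop := ∃ K0 : ℕ, ∀ t l' l, K0 ≤ l' → PDs m k t l' l →
    ∀ (w : Key → ℕ) (R : ℝ), 0 ≤ R → Bad m k t l' l R w →
    ∃ c ∈ Jx m k t l' l, R < cNx m k t l' l w c

/-- S3: the number of contexts -/
def CardJxS (m : Sq) (k : ℕ) : Prop := ∃ K0 : ℕ, ∀ t l' l, K0 ≤ l' → PDs m k t l' l →
    ((Jx m k t l' l).card : ℝ) ≤ Real.exp (90 * wW m k l (t - 1))

/-- S0: numbers of a pair -/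
def NumS (m : Sq) (k : ℕ) : Prop := ∃ K0 : ℕ, ∀ t l' l, K0 ≤ l' → PDs m k t l' l →
    l' < l ∧ 20 * (l - l') < 7 * wW m k l t ∧ hb m k t l' l ≤ 3

/-- S4: the static block, all contexts -/
def SlInstS (m : Sq) (k : ℕ) : Prop := ∃ K0 : ℕ, ∀ t l' l, K0 ≤ l' → PDs m k t l' l →
    ∀ K : Finset Key, keysOf m k l ⊆ K → keysOf m k l' ⊆ K →
    ∀ (R0 n : ℕ), 1 ≤ n → ∀ δ ε : ℝ, δ ≤ wW m k l (sb m k t l' l) → ∀ A : (Key → ℕ) → Prop,
    Pool.Agent.Helper22.SL.PrG (Mk m k) (deep m k l l' (sb m k t l' l)) A ε →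
    (∀ w : Key → ℕ, (∀ q, w q < Mk m k q) → ¬ A w →
      (∀ c ∈ Jx m k t l' l, PPx m k t l' l w c ≤ Real.exp (-δ)) ∧
      ∀ n, ((Zw m k l (sb m k t l' l) w ×ˢ Zw m k l' (sb m k t l' l - 1) w).filter
        (fun q => q.1 + q.2 = n)).card ≤ R0) →
    Pool.Agent.Helper22.SL.PrG (Mk m k) K (fun w => ∃ c ∈ Jx m k t l' l,
      (n + 1) ^ 2 ^ (4 * hb m k t l' l) *
        (Pool.Agent.Helper39.SL.Cd (PN m k t l' l c.1) * R0) < cNx m k t l' l w c)
      (ε + (Jx m k t l' l).card * ((3 * (hb m k t l' l : ℝ) + 1) *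
        Real.exp (42 * wW m k l t) * Real.exp (-δ) ^ (n + 1)))

/-- S7: regular windows -/
def PpRegS (m : Sq) (k : ℕ) : Prop := ∃ K0 : ℕ, ∀ t l' l, K0 ≤ l' → PDs m k t l' l →
    CaseReg m k t l' l → ∀ w : Key → ℕ,
    RegE m k l (sb m k t l' l) w → RegE m k l' (sb m k t l' l - 1) w →
    ∀ c ∈ Jx m k t l' l, PPx m k t l' l w c ≤ Real.exp (-(dReg m k t l' l))

/-- S8: pairs of elements of the inner windows, for all outer keys (deterministic) -/
def ZbadS (E : ℕ) (m : Sq) : Prop := ∃ K0 : ℕ, ∀ l' l i, K0 ≤ l' →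
    l' ≤ l → Near m m.k l' l → Split m m.k l' l → 1 ≤ i → i ≤ rL m m.k l →
    ∀ w : Key → ℕ, (∀ q, w q < Mk m m.k q) → ∀ (o : JF → ℕ) (n : ℕ),
    ((Zw m m.k l i w ×ˢ ZwO m m.k l' (i - 1) o w).filter (fun q => q.1 + q.2 = n)).card ≤
      2 ^ (E * m.q 0)

/-- S9: the last windows (one element), small distance (deterministic) -/
def PpBotS (m : Sq) (k : ℕ) : Prop := ∃ K0 : ℕ, ∀ t l' l, K0 ≤ l' →
    PDs m k t l' l → CaseBt m k t l' l → ∀ w : Key → ℕ,
    ∀ c ∈ Jx m k t l' l, PPx m k t l' l w c ≤ Real.exp (-(dReg m k t l' l))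

/-- S10: exponents, all pairs -/
def NumRegS : Prop := ∀ E1 : ℕ, ∃ E : ℕ, ∀ m : Sq, OkF m → ∃ K0 : ℕ,
    ∀ t l' l, K0 ≤ l' → PDs m m.k t l' l → ∃ n : ℕ, 1 ≤ n ∧
      42 * (wW m m.k l t : ℝ) + 3 + SS m (bL m m.k l) +
        90 * wW m m.k l (t - 1) ≤ (n + 1 : ℕ) * dReg m m.k t l' l ∧
      ∀ o, (n + 1) ^ 2 ^ (4 * hb m m.k t l' l) *
        (Pool.Agent.Helper39.SL.Cd (PN m m.k t l' l o) * 2 ^ (E1 * m.q 0)) ≤ 2 ^ (E * m.q 0)

/-- all lines -/
structure Lines : Prop where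
  nearR : ∃ E, ∀ m : Sq, OkF m → NearRS E m
  badCtx : ∀ m : Sq, OkF m → BadCtxS m m.k
  cardJx : ∀ m : Sq, OkF m → CardJxS m m.k
  num : ∀ m : Sq, OkF m → NumS m m.k
  slInst : ∀ m : Sq, OkF m → SlInstS m m.k
  ppReg : ∀ m : Sq, OkF m → PpRegS m m.k
  zbad : ∃ E, ∀ m : Sq, OkF m → ZbadS E m
  ppBot : ∀ m : Sq, OkF m → PpBotS m m.k
  numReg : NumRegS

end Pool.Agent.Helper22.NEARsg
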