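import Pool.Agent.Helper22.NEARsg.Glue
import Pool.Agent.Helper39.T5g.S4
import Pool.Agent.Helper45.T5g.LinesSG
import Pool.Agent.Helper50.T5g.BadCtxS
import Pool.Agent.Helper57.T5g.ZB
import Pool.Agent.Helper57.T5g.PpS
import Pool.Agent.Helper63.T5g.SplitNum
import Pool.Agent.Helper37.T5g.NumS
import Pool.Agent.Helper44.T5g.NearRSLate

/-!
# T5g: the block STAT-S (near pairs of states across SPLIT, common front of a static level which is
not the last front)
-/

set_option autoImplicit false

namespace Pool.Agent.Helper22.NEARsg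

open Pool.Agent.Helper84.T5g

/-- all lines -/
theorem lines : Lines where
  nearR := ⟨10, Pool.Agent.Helper44.T5g.nearRS⟩
  badCtx := fun _ hm => Pool.Agent.Helper50.T5g.badCtxS_okF hm
  cardJx := fun _ hm => Pool.Agent.Helper50.T5g.cardJxS_okF hm
  num := fun m hm => Pool.Agent.Helper63.T5g.numS m m.k hm.toOk
  slInst := Pool.Agent.Helper39.T5g.slInstS
  ppReg := Pool.Agent.Helper45.T5g.ppRegSG
  zbad := Pool.Agent.Helper57.T5g.zbadS
  ppBot := Pool.Agent.Helper57.T5g.ppBotS
  numReg := Pool.Agent.Helper37.T5g.NumS.numReg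

/-- **`Blk CaseStatS RpC`** -/
theorem blk_statS : Blk CaseStatS RpC := blk_statS_of lines

end Pool.Agent.Helper22.NEARsg
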